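import Pool.Agent.Run7.h659.HO4

/-!
# The points of an adjoint-isomorphism orbit on a rational curve in a Shimura variety: uniform bounds in short windows

Let `V` be an open subset of the projective line over a number field `L ⊂ ℂ` with `0 ∈ V`, with a nonconstant morphism to a
Shimura variety `Γ' \ X⁺` of abelian type, and let `𝔤` be the Lie algebra of `G^ad`. The points `z` of `V` define Hodge
structures on the rational vector space `𝔤`, which form a variation of Hodge structure of geometric origin on `V`, with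
infinite monodromy. Choose sections over `L` of its de Rham bundle, regular near `0`, such that those with indices in `J_p`
span the step `F^p`, and a basis of `𝔤`. The coordinates of the sections are the columns of a matrix `P(z) = C Z(z)`, `Z` the
fundamental matrix at `0` of the connection `f Z' = Z A`, whose entries are G-functions (André), `C` invertible. The
monodromy group `Γ` preserves the relations over `ℂ[z]` between the entries of `P(z)`, and the filtration has at least two
(in fact infinitely many) translates by `Γ`, at each point.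

Let `(M, X_M)` be any Shimura datum and `x` a Hodge generic point of `X_M`. If `z` is a Hodge generic point of `V` in the orbit
`Σ(M, X_M, x)`, there is a surjective homomorphism `M^ad → G^ad` which maps `x^ad` to the point of `z`. Its differential
`Lie M^ad → 𝔤` is surjective and maps the filtration of `Lie M^ad` at `x` onto the filtration of `𝔤` at `z`. Its kernel is one
of the `2 ^ s` ideals of `Lie M^ad`, `s` the number of its simple factors.

We prove: there are numbers `G`, `M` and `c > 0` such that in each window `[N, N + N ^ c]` outside a set `S` of at most `M`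
integers

1. the endomorphisms of the Hodge structure on `𝔤` at `1 / t` are scalars, if the only matrices all of whose conjugates
under `Γ` preserve the filtration are the scalars (for instance if `G^ad` is absolutely simple and `Γ` is Zariski dense);
then `1 / t` is Hodge generic;

2. for any filtered space, for instance the space `Lie M^ad` with the filtration at `x`, and any finite set of `k`
subspaces, for instance the ideals, there are at most `M + k G` integers `t` in the window for which the filtered space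
`𝔤` at `1 / t` is the quotient by one of the subspaces. So the orbit `Σ(M, X_M, x)` contains at most `M + 2 ^ s G` Hodge
generic points `1 / t` of the window. The bound is uniform in `(M, X_M)` and `x`.
-/

set_option autoImplicit false

open PowerSeries

namespace Pool.Agent.Results.MP_7e5527_ag.AdjointOrbitsInWindows

/-- The arithmetic conditions in the definition of a G-function over a number field: geometric growth of the conjugates of
the coefficients and of their common denominators. -/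
def GCond {L : Type} [Field L] (g : L⟦X⟧) : Prop := ∃ C : ℝ, (∀ (φ : L →+* ℂ) (m : ℕ), ‖φ (coeff m g)‖ ≤ C ^ (m + 1)) ∧
  ∀ m, ∃ d : ℕ, 0 < d ∧ (d : ℝ) ≤ C ^ (m + 1) ∧ ∀ j ≤ m, IsIntegral ℤ ((d : L) * coeff j g)

/-- `Z` is a fundamental matrix of G-functions of the system `f Z' = Z A`, regular at `0`, and `W` is its inverse. -/
structure IsGSystem {L : Type} [Field L] {n : ℕ} (f : Polynomial L) (A : Matrix (Fin n) (Fin n) (Polynomial L))
    (Z W : Matrix (Fin n) (Fin n) L⟦X⟧) : Prop where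
  regular : f.coeff 0 ≠ 0
  ode : ∀ i j, (f : L⟦X⟧) * PowerSeries.derivative L (Z i j) = ∑ k, Z i k * (A k j : L⟦X⟧)
  inverse : W * Z = 1
  gZ : ∀ i j, GCond (Z i j)
  gW : ∀ i j, GCond (W i j)

/-- the matrix of the values `Z_(i,j)(z)` -/
noncomputable def fundamental {L : Type} [Field L] [Algebra L ℂ] {n : ℕ} (Z : Matrix (Fin n) (Fin n) L⟦X⟧) (z : ℂ) :
    Matrix (Fin n) (Fin n) ℂ :=
  Matrix.of fun i j => ∑' m : ℕ, algebraMap L ℂ (coeff m (Z i j)) * z ^ m

/-- the filtration of `ℂ ^ n` by the subspaces spanned by the columns `j ∈ J p` of the matrix `P` -/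
def filtration {n : ℕ} {ι : Type} (J : ι → Set (Fin n)) (P : Matrix (Fin n) (Fin n) ℂ) (p : ι) :
    Submodule ℂ (Fin n → ℂ) :=
  Submodule.span ℂ ((fun j i => P i j) '' J p)

/-- All elements of `Γ` preserve the relations with coefficients in `ℂ[z]` between the entries of `P(z)` on the discs around
`0` of radius at most `R`. This is true for the monodromy group: continue the relation along a loop. -/
def Monodromy {n : ℕ} (P : ℂ → Matrix (Fin n) (Fin n) ℂ) (R : ℝ) (Γ : Subgroup (GL (Fin n) ℂ)) : Prop :=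
  ∀ g ∈ Γ, ∀ r : ℝ, 0 < r → r ≤ R → ∀ F : MvPolynomial (Fin n × Fin n) (Polynomial ℂ),
    (∀ z : ℂ, ‖z‖ < r → F.eval₂ (Polynomial.evalRingHom z) (fun v => P z v.1 v.2) = 0) →
    ∀ z : ℂ, ‖z‖ < r → F.eval₂ (Polynomial.evalRingHom z)
      (fun v => ((g : Matrix (Fin n) (Fin n) ℂ) * P z) v.1 v.2) = 0

/-- the translates of the filtration by the elements of `Γ` -/
def translates {n : ℕ} {ι : Type} (J : ι → Set (Fin n)) (Γ : Subgroup (GL (Fin n) ℂ)) (P : Matrix (Fin n) (Fin n) ℂ) :
    Set (ι → Submodule ℂ (Fin n → ℂ)) :=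
  {E | ∃ g ∈ Γ, E = filtration J ((g : Matrix (Fin n) (Fin n) ℂ) * P)}

/-- the matrix `φ` preserves the filtration `E` -/
def Preserves {n : ℕ} {ι : Type} (φ : Matrix (Fin n) (Fin n) ℂ) (E : ι → Submodule ℂ (Fin n → ℂ)) : Prop :=
  ∀ p, ∀ v ∈ E p, φ.mulVec v ∈ E p

/-- A surjective rational linear map with kernel `K` maps the filtration `E` of `ℂ ^ e` onto the filtration `F` of `ℂ ^ n`. -/
def IsQuotient {n e : ℕ} {ι : Type} (E : ι → Submodule ℂ (Fin e → ℂ)) (F : ι → Submodule ℂ (Fin n → ℂ))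
    (K : Submodule ℚ (Fin e → ℚ)) : Prop :=
  ∃ φ : Matrix (Fin n) (Fin e) ℚ, Function.Surjective φ.mulVec ∧ (∀ v, φ.mulVec v = 0 ↔ v ∈ K) ∧
    ∀ p, (E p).map (Matrix.mulVecLin (φ.map (algebraMap ℚ ℂ))) = F p

open Pool.Agent.Run7.h659.HO (iso_win card_close map_eq_of_le inj_of_det)

/-- two quotients with the same kernel are isomorphic -/
theorem iso_of_quotients {n e : ℕ} {ι : Type} {E : ι → Submodule ℂ (Fin e → ℂ)} {F F' : ι → Submodule ℂ (Fin n → ℂ)}
    {K : Submodule ℚ (Fin e → ℚ)} (h : IsQuotient E F K) (h' : IsQuotient E F' K) :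
    ∃ ψ : Matrix (Fin n) (Fin n) ℚ, ψ.det ≠ 0 ∧ ∀ p, ∀ v ∈ F p, (ψ.map (algebraMap ℚ ℂ)).mulVec v ∈ F' p := by
  obtain ⟨φ, hs, hk, hF⟩ := h
  obtain ⟨φ', hs', hk', hF'⟩ := h'
  obtain ⟨B, hB⟩ := Matrix.mulVec_surjective_iff_exists_right_inverse.1 hs
  have hψ : φ' * B * φ = φ' := by
    refine Matrix.ext_of_mulVec_single fun i => ?_
    set v : Fin e → ℚ := Pi.single i 1 with hv
    have h1 : B.mulVec (φ.mulVec v) - v ∈ K := by
      rw [← hk, Matrix.mulVec_sub, Matrix.mulVec_mulVec, hB, Matrix.one_mulVec, sub_self]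
    rw [← hk', Matrix.mulVec_sub, sub_eq_zero] at h1
    rw [← Matrix.mulVec_mulVec, ← Matrix.mulVec_mulVec]
    exact h1
  refine ⟨φ' * B, ?_, fun p v hv => ?_⟩
  · have h1 : Function.Surjective (φ' * B).mulVec := by
      intro w
      obtain ⟨v, rfl⟩ := hs' w
      refine ⟨φ.mulVec v, ?_⟩
      rw [Matrix.mulVec_mulVec, hψ]
    obtain ⟨B', hB'⟩ := Matrix.mulVec_surjective_iff_exists_right_inverse.1 h1
    intro h0
    have h2 := congrArg Matrix.det hB'
    rw [Matrix.det_mul, h0, zero_mul, Matrix.det_one] at h2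
    exact zero_ne_one h2
  · rw [← hF p] at hv
    obtain ⟨w, hw, rfl⟩ := hv
    rw [← hF' p]
    refine ⟨w, hw, ?_⟩
    rw [Matrix.mulVecLin_apply, Matrix.mulVecLin_apply, Matrix.mulVec_mulVec, ← Matrix.map_mul, hψ]

/-- **Adjoint-isomorphism orbits in windows.** -/
theorem result {L : Type} [Field L] [NumberField L] [Algebra L ℂ] {n : ℕ} (f : Polynomial L)
    (A : Matrix (Fin n) (Fin n) (Polynomial L)) (Z W : Matrix (Fin n) (Fin n) L⟦X⟧) (h : IsGSystem f A Z W)
    (C : Matrix (Fin n) (Fin n) ℂ) (hC : C.det ≠ 0) (R : ℝ) (hR : 0 < R) (Γ : Subgroup (GL (Fin n) ℂ))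
    (hΓ : Monodromy (fun z => C * fundamental Z z) R Γ) {ι : Type} (J : ι → Set (Fin n))
    (htr : ∀ z : ℂ, ‖z‖ < R → (translates J Γ (C * fundamental Z z)).Nontrivial) :
    ∃ r : ℝ, 0 < r ∧ r ≤ R ∧ ∃ G M : ℕ, ∃ c : ℝ, 0 < c ∧ ∀ N : ℕ, 1 ≤ N → ∃ S : Finset ℕ, S.card ≤ M ∧
      (∀ t : ℕ, N ≤ t → (t : ℝ) ≤ N + (N : ℝ) ^ c → t ∉ S → 1 / (t : ℝ) < r ∧
        ((∀ φ : Matrix (Fin n) (Fin n) ℂ, (∀ E ∈ translates J Γ (C * fundamental Z (1 / (t : ℂ))), Preserves φ E) →
          ∃ a : ℂ, φ = a • (1 : Matrix (Fin n) (Fin n) ℂ)) →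
        ∀ φ : Matrix (Fin n) (Fin n) ℚ,
          Preserves (φ.map (algebraMap ℚ ℂ)) (filtration J (C * fundamental Z (1 / (t : ℂ)))) →
          ∃ a : ℂ, φ.map (algebraMap ℚ ℂ) = a • (1 : Matrix (Fin n) (Fin n) ℂ))) ∧
      ∀ (e : ℕ) (E : ι → Submodule ℂ (Fin e → ℂ)) (K : Finset (Submodule ℚ (Fin e → ℚ))) (T : Finset ℕ),
        (∀ t ∈ T, N ≤ t ∧ (t : ℝ) ≤ N + (N : ℝ) ^ c ∧
          ∃ k ∈ K, IsQuotient E (filtration J (C * fundamental Z (1 / (t : ℂ)))) k) →
        T.card ≤ M + K.card * G := by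
  classical
  set P : ℂ → Matrix (Fin n) (Fin n) ℂ := fun z => C * fundamental Z z with hP
  have hD : Pool.Agent.Y921.DB.DatL f (fun i j => A i j) (fun i j => Z i j) (fun i j => W i j) := by
    refine ⟨h.regular, h.ode, fun i j => ?_, h.gZ, h.gW⟩
    have h1 : (W * Z) i j = (1 : Matrix (Fin n) (Fin n) L⟦X⟧) i j := by rw [h.inverse]
    rw [Matrix.mul_apply] at h1
    rw [h1, Matrix.one_apply]
  obtain ⟨r, hr, hrR, hdet, G, hwin⟩ := iso_win hD hC hR (P := P) (fun z => rfl) Γ hΓ
  obtain ⟨M, c, hc, hM⟩ := hwin 1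
  refine ⟨r, hr, hrR, G, M, c, hc, fun N hN => ?_⟩
  -- the rational numbers
  set V : Submodule ℚ ℂ := Submodule.span ℚ {1} with hV
  have hVf : Module.Finite ℚ V := Module.Finite.span_of_finite ℚ (Set.finite_singleton _)
  have hVr : Module.finrank ℚ V ≤ 1 := (finrank_span_le_card ({1} : Set ℂ)).trans (by simp)
  have hVm : ∀ a : ℚ, algebraMap ℚ ℂ a ∈ V := fun a => by
    rw [Algebra.algebraMap_eq_smul_one]
    exact V.smul_mem a (Submodule.subset_span rfl)
  obtain ⟨S, hS, hS1, hS2⟩ := hM V hVf hVr N hN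
  refine ⟨S, hS, fun t h1 h2 h3 => ?_, fun e E K T hT => ?_⟩
  · obtain ⟨h4, h5⟩ := hS1 t h1 h2 h3
    refine ⟨h4, fun hsc φ hφ => hsc _ ?_⟩
    rintro _ ⟨g, hg, rfl⟩ p v hv
    exact h5 (φ.map (algebraMap ℚ ℂ)) (fun i j => hVm _) (J p) (hφ p) g hg v hv
  · -- integers outside `S` with the same kernel are near to each other
    have hgd : ∀ g : GL (Fin n) ℂ, ∀ Q : Matrix (Fin n) (Fin n) ℂ, Q.det ≠ 0 →
        ((g : Matrix (Fin n) (Fin n) ℂ) * Q).det ≠ 0 := by
      intro g Q hQ
      rw [Matrix.det_mul]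
      exact mul_ne_zero ((Matrix.isUnit_iff_isUnit_det _).1 g.isUnit).ne_zero hQ
    have hclose : ∀ t t' : ℕ, N ≤ t → (t : ℝ) ≤ N + (N : ℝ) ^ c → t ∉ S → N ≤ t' → (t' : ℝ) ≤ N + (N : ℝ) ^ c →
        t' ∉ S → ∀ k, IsQuotient E (filtration J (P (1 / (t : ℂ)))) k →
        IsQuotient E (filtration J (P (1 / (t' : ℂ)))) k → |(t : ℤ) - t'| < G := by
      intro t t' h1 h2 h3 h1' h2' h3' k hk hk'
      by_contra hG
      rw [not_lt] at hG
      obtain ⟨ψ, hψ, hm⟩ := iso_of_quotients hk hk'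
      have hψ' : (ψ.map (algebraMap ℚ ℂ)).det ≠ 0 := by
        have h5 : (ψ.map (algebraMap ℚ ℂ)).det = algebraMap ℚ ℂ ψ.det := (RingHom.map_det (algebraMap ℚ ℂ) ψ).symm
        rw [h5]
        exact (map_ne_zero _).2 hψ
      have ht : ‖(1 / (t : ℂ))‖ < r := by
        have := (hS1 t h1 h2 h3).1
        rwa [norm_div, norm_one, Complex.norm_natCast]
      have ht' : ‖(1 / (t' : ℂ))‖ < r := by
        have := (hS1 t' h1' h2' h3').1
        rwa [norm_div, norm_one, Complex.norm_natCast]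
      obtain ⟨E₁, ⟨g₁, hg₁, rfl⟩, E₂, ⟨g₂, hg₂, rfl⟩, hne⟩ := htr (1 / (t : ℂ)) (ht.trans_le hrR)
      apply hne
      funext p
      have key : ∀ g ∈ Γ, (filtration J ((g : Matrix (Fin n) (Fin n) ℂ) * P (1 / (t : ℂ))) p).map
          (Matrix.mulVecLin (ψ.map (algebraMap ℚ ℂ))) =
          filtration J (((1 : GL (Fin n) ℂ) : Matrix (Fin n) (Fin n) ℂ) * P (1 / (t' : ℂ))) p := fun g hg =>
        map_eq_of_le hψ' (hgd g _ (hdet _ ht)) (hgd 1 _ (hdet _ ht'))
          (hS2 t t' h1 h2 h3 h1' h2' h3' hG _ (fun i j => hVm _) (J p) (hm p) g hg 1 Γ.one_mem)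
      exact Submodule.map_injective_of_injective (inj_of_det hψ') ((key g₁ hg₁).trans (key g₂ hg₂).symm)
    have hsub : T ⊆ S ∪ K.biUnion fun k => (T \ S).filter fun t =>
        IsQuotient E (filtration J (P (1 / (t : ℂ)))) k := by
      intro t ht
      by_cases hS' : t ∈ S
      · exact Finset.mem_union_left _ hS'
      · obtain ⟨-, -, k, hk, hq⟩ := hT t ht
        refine Finset.mem_union_right _ (Finset.mem_biUnion.2 ⟨k, hk, ?_⟩)
        exact Finset.mem_filter.2 ⟨Finset.mem_sdiff.2 ⟨ht, hS'⟩, hq⟩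
    refine (Finset.card_le_card hsub).trans ((Finset.card_union_le _ _).trans (add_le_add hS ?_))
    refine Finset.card_biUnion_le_card_mul _ _ _ fun k hk => ?_
    have h6 := card_close (T := (T \ S).filter fun t => IsQuotient E (filtration J (P (1 / (t : ℂ)))) k) (S := ∅)
      (G := G) (by
        intro t ht _ t' ht' _
        obtain ⟨h7, h8⟩ := Finset.mem_filter.1 ht
        obtain ⟨h7', h8'⟩ := Finset.mem_filter.1 ht'
        obtain ⟨h9, h10⟩ := Finset.mem_sdiff.1 h7
        obtain ⟨h9', h10'⟩ := Finset.mem_sdiff.1 h7'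
        exact hclose t t' (hT t h9).1 (hT t h9).2.1 h10 (hT t' h9').1 (hT t' h9').2.1 h10' k h8 h8')
    simpa using h6

end Pool.Agent.Results.MP_7e5527_ag.AdjointOrbitsInWindows
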